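import Mathlib
import Pool.Agent.X172.Lam

set_option autoImplicit false

namespace Pool.Agent.Results.MP_7ca01f_co.UnboundedDistortion

open Finset Matrix Filter Pool.Agent.X172.Lam

section Defs

variable {V : Type} [Fintype V] [DecidableEq V]

/-- The Laplacian `D - A` of a weighted graph with weighted adjacency matrix `A`. -/
def lapl (A : Matrix V V ℝ) : Matrix V V ℝ := Matrix.diagonal (fun i => ∑ j, A i j) - A

/-- `A` is the adjacency matrix of a weighted graph `H` with `E(H) ⊆ E(G)` (nonnegative symmetric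
weights, the edges of `H` being the pairs of positive weight) which is a `(1 ± ε)`-Laplacian
sparsifier of `G`. -/
def IsSparsifier (G : SimpleGraph V) [DecidableRel G.Adj] (ε : ℝ) (A : Matrix V V ℝ) : Prop :=
  A.IsSymm ∧ (∀ u v, 0 ≤ A u v) ∧ (∀ u v, A u v ≠ 0 → G.Adj u v) ∧
    ∀ x : V → ℝ, (1 - ε) * (x ⬝ᵥ (lapl (G.adjMatrix ℝ)) *ᵥ x) ≤ x ⬝ᵥ (lapl A) *ᵥ x ∧
      x ⬝ᵥ (lapl A) *ᵥ x ≤ (1 + ε) * (x ⬝ᵥ (lapl (G.adjMatrix ℝ)) *ᵥ x)

/-- At least one edge of `G` is absent from `H`. -/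
def EdgeDeleting (G : SimpleGraph V) (A : Matrix V V ℝ) : Prop := ∃ u v, G.Adj u v ∧ A u v = 0

theorem lapl_form {A : Matrix V V ℝ} (hA : A.IsSymm) (x : V → ℝ) :
    x ⬝ᵥ (lapl A) *ᵥ x = (∑ u, ∑ v, A u v * (x u - x v) ^ 2) / 2 := by
  have h1 : x ⬝ᵥ (lapl A) *ᵥ x = ∑ u, ∑ v, A u v * (x u * x u - x u * x v) := by
    unfold lapl dotProduct
    refine sum_congr rfl fun u _ => ?_
    rw [sub_mulVec, Pi.sub_apply, mulVec_diagonal]
    unfold mulVec dotProduct
    rw [sum_mul, ← sum_sub_distrib, mul_sum]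
    refine sum_congr rfl fun v _ => ?_
    ring
  have h2 : ∑ u, ∑ v, A u v * (x u * x u - x u * x v)
      = ∑ u, ∑ v, A u v * (x v * x v - x u * x v) := by
    rw [sum_comm]
    refine sum_congr rfl fun u _ => sum_congr rfl fun v _ => ?_
    rw [hA.apply u v]
    ring
  have h3 : ∑ u, ∑ v, A u v * (x u - x v) ^ 2 = ∑ u, ∑ v, A u v * (x u * x u - x u * x v)
      + ∑ u, ∑ v, A u v * (x v * x v - x u * x v) := by
    rw [← sum_add_distrib]
    refine sum_congr rfl fun u _ => ?_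
    rw [← sum_add_distrib]
    refine sum_congr rfl fun v _ => ?_
    ring
  rw [h3, ← h2, h1]
  ring

end Defs

section Example

/-- Three hubs and `n` leaves. -/
abbrev W (n : ℕ) : Type := Fin 3 ⊕ Fin n

/-- The hubs are mutually adjacent and adjacent to all leaves; no other edges. -/
def G (n : ℕ) : SimpleGraph (W n) where
  Adj x y := match x, y with
    | Sum.inl i, Sum.inl j => i ≠ j
    | Sum.inl _, Sum.inr _ => True
    | Sum.inr _, Sum.inl _ => True
    | Sum.inr _, Sum.inr _ => False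
  symm := ⟨by
    rintro (i | i) (j | j) h
    · exact Ne.symm h
    · trivial
    · trivial
    · exact h⟩
  loopless := ⟨by
    rintro (i | i) h
    · exact h rfl
    · exact h⟩

instance (n : ℕ) : DecidableRel (G n).Adj := by
  rintro (i | i) (j | j)
  · exact inferInstanceAs (Decidable (i ≠ j))
  · exact isTrue trivial
  · exact isTrue trivial
  · exact isFalse (fun h => h)

theorem connected (n : ℕ) : (G n).Connected := by
  have h0 : ∀ x : W n, (G n).Reachable (Sum.inl 0) x := by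
    rintro (i | i)
    · by_cases h : i = 0
      · rw [h]
      · exact SimpleGraph.Adj.reachable (show (0 : Fin 3) ≠ i from Ne.symm h)
    · exact SimpleGraph.Adj.reachable (G := G n) (u := Sum.inl 0) (v := Sum.inr i) trivial
  exact ⟨fun x y => (h0 x).symm.trans (h0 y)⟩

/-- The weights: the edge between the hubs `0` and `1` is deleted, the other two edges between hubs
have weight `w`, all other weights are `1`. -/
def A (n : ℕ) (w : ℝ) : Matrix (W n) (W n) ℝ := fun x y => match x, y with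
    | Sum.inl i, Sum.inl j => !![0, 0, w; 0, 0, w; w, w, 0] i j
    | Sum.inl _, Sum.inr _ => 1
    | Sum.inr _, Sum.inl _ => 1
    | Sum.inr _, Sum.inr _ => 0

theorem adjMatrix_ll (n : ℕ) (i j : Fin 3) :
    (G n).adjMatrix ℝ (Sum.inl i) (Sum.inl j) = !![0, 1, 1; 1, 0, 1; 1, 1, 0] i j := by
  rw [SimpleGraph.adjMatrix_apply]
  have : (G n).Adj (Sum.inl i) (Sum.inl j) ↔ i ≠ j := Iff.rfl
  simp only [this]
  fin_cases i <;> fin_cases j <;> simp

theorem adjMatrix_lr (n : ℕ) (i : Fin 3) (j : Fin n) :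
    (G n).adjMatrix ℝ (Sum.inl i) (Sum.inr j) = 1 := by
  rw [SimpleGraph.adjMatrix_apply]
  exact if_pos trivial

theorem adjMatrix_rl (n : ℕ) (i : Fin 3) (j : Fin n) :
    (G n).adjMatrix ℝ (Sum.inr j) (Sum.inl i) = 1 := by
  rw [SimpleGraph.adjMatrix_apply]
  exact if_pos trivial

theorem adjMatrix_rr (n : ℕ) (i j : Fin n) :
    (G n).adjMatrix ℝ (Sum.inr i) (Sum.inr j) = 0 := by
  rw [SimpleGraph.adjMatrix_apply]
  exact if_neg (fun h => h)

theorem A_symm (n : ℕ) (w : ℝ) : (A n w).IsSymm := by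
  ext x y
  rw [transpose_apply]
  rcases x with i | i <;> rcases y with j | j
  · simp only [A]
    fin_cases i <;> fin_cases j <;> simp
  · rfl
  · rfl
  · rfl

/-- The energy of the edges between hubs and leaves. -/
def Sf {n : ℕ} (x : W n → ℝ) : ℝ := ∑ l : Fin n, ((x (Sum.inl 0) - x (Sum.inr l)) ^ 2 +
  (x (Sum.inl 1) - x (Sum.inr l)) ^ 2 + (x (Sum.inl 2) - x (Sum.inr l)) ^ 2)

theorem form_G (n : ℕ) (x : W n → ℝ) :
    x ⬝ᵥ (lapl ((G n).adjMatrix ℝ)) *ᵥ x = (x (Sum.inl 0) - x (Sum.inl 1)) ^ 2 +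
      (x (Sum.inl 0) - x (Sum.inl 2)) ^ 2 + (x (Sum.inl 1) - x (Sum.inl 2)) ^ 2 + Sf x := by
  rw [lapl_form ((G n).isSymm_adjMatrix)]
  simp only [Fintype.sum_sum_type, adjMatrix_ll, adjMatrix_lr, adjMatrix_rl, adjMatrix_rr,
    Fin.sum_univ_three, Sf, sum_add_distrib, zero_mul, one_mul, sum_const_zero, add_zero]
  have h : ∀ c : ℝ, ∑ l : Fin n, (x (Sum.inr l) - c) ^ 2 = ∑ l : Fin n, (c - x (Sum.inr l)) ^ 2 :=
    fun c => sum_congr rfl fun l _ => by ring
  rw [h, h, h]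
  simp
  ring

theorem form_A (n : ℕ) (w : ℝ) (x : W n → ℝ) :
    x ⬝ᵥ (lapl (A n w)) *ᵥ x = w * (x (Sum.inl 0) - x (Sum.inl 2)) ^ 2 +
      w * (x (Sum.inl 1) - x (Sum.inl 2)) ^ 2 + Sf x := by
  rw [lapl_form (A_symm n w)]
  simp only [Fintype.sum_sum_type, A,
    Fin.sum_univ_three, Sf, sum_add_distrib, zero_mul, one_mul, sum_const_zero, add_zero]
  have h : ∀ c : ℝ, ∑ l : Fin n, (x (Sum.inr l) - c) ^ 2 = ∑ l : Fin n, (c - x (Sum.inr l)) ^ 2 :=
    fun c => sum_congr rfl fun l _ => by ring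
  rw [h, h, h]
  simp
  ring

theorem Sf_ge {n : ℕ} (x : W n → ℝ) : (n : ℝ) * ((x (Sum.inl 0) - x (Sum.inl 1)) ^ 2 +
      (x (Sum.inl 0) - x (Sum.inl 2)) ^ 2 + (x (Sum.inl 1) - x (Sum.inl 2)) ^ 2) ≤ 3 * Sf x := by
  unfold Sf
  rw [mul_sum]
  have h1 : (n : ℝ) * ((x (Sum.inl 0) - x (Sum.inl 1)) ^ 2 +
      (x (Sum.inl 0) - x (Sum.inl 2)) ^ 2 + (x (Sum.inl 1) - x (Sum.inl 2)) ^ 2) =
      ∑ _l : Fin n, ((x (Sum.inl 0) - x (Sum.inl 1)) ^ 2 +
      (x (Sum.inl 0) - x (Sum.inl 2)) ^ 2 + (x (Sum.inl 1) - x (Sum.inl 2)) ^ 2) := by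
    rw [sum_const, card_univ, Fintype.card_fin, nsmul_eq_mul]
  rw [h1]
  refine sum_le_sum fun l _ => ?_
  nlinarith [sq_nonneg (x (Sum.inl 0) + x (Sum.inl 1) + x (Sum.inl 2) - 3 * x (Sum.inr l))]

theorem sparsifier (n : ℕ) (hn : 6 ≤ n) : IsSparsifier (G n) (1 / 2) (A n (1 + n / 6)) := by
  have hn' : (6 : ℝ) ≤ n := by exact_mod_cast hn
  refine ⟨A_symm _ _, ?_, ?_, ?_⟩
  · intro x y
    rcases x with i | i <;> rcases y with j | j
    · simp only [A]
      fin_cases i <;> fin_cases j <;> simp <;> positivity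
    · exact zero_le_one
    · exact zero_le_one
    · exact le_rfl
  · intro x y h
    rcases x with i | i <;> rcases y with j | j
    · intro hij
      subst hij
      apply h
      simp only [A]
      fin_cases i <;> simp
    · trivial
    · trivial
    · exact absurd rfl h
  · intro x
    rw [form_G, form_A]
    have h1 := Sf_ge x
    generalize Sf x = S at h1
    generalize x (Sum.inl 0) = a at h1
    generalize x (Sum.inl 1) = b at h1
    generalize x (Sum.inl 2) = c at h1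
    have e1 := sq_nonneg (a - b)
    have e2 := sq_nonneg (a - c)
    have e3 := sq_nonneg (b - c)
    have e4 : 6 * (a - b) ^ 2 ≤ n * (a - b) ^ 2 := mul_le_mul_of_nonneg_right hn' e1
    have e5 : 0 ≤ (n : ℝ) * (a - c) ^ 2 := by positivity
    have e6 : 0 ≤ (n : ℝ) * (b - c) ^ 2 := by positivity
    constructor <;> linarith

theorem lower (n : ℕ) (hn : 1 ≤ n) (w : ℝ) :
    Real.sqrt (3 * n) + 2 / 3 * w ≤ lam1 (A n w) := by
  have hn' : (1 : ℝ) ≤ n := by exact_mod_cast hn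
  set s := Real.sqrt (3 * n) with hs
  have hs2 : s ^ 2 = 3 * n := Real.sq_sqrt (by positivity)
  have hs0 : 0 < s := Real.sqrt_pos.mpr (by positivity)
  have hn0 : (n : ℝ) ≠ 0 := by positivity
  have h := rayleigh (M := A n w) (A_symm n w) (fun x => match x with
    | Sum.inl _ => 1 | Sum.inr _ => s / n)
  simp only [Fintype.sum_sum_type, A, Fin.sum_univ_three, sum_const, card_univ, Fintype.card_fin,
    nsmul_eq_mul] at h
  simp at h
  have e1 : (n : ℝ) * (s / n) = s := by field_simp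
  have e2 : (n : ℝ) * (s / n) ^ 2 = 3 := by
    rw [div_pow, hs2]
    field_simp
  have e3 : (n : ℝ) * (s / n + s / n + s / n) = 3 * s := by linarith
  rw [e1, e2, e3] at h
  linarith

theorem upper (n : ℕ) : lam1 ((G n).adjMatrix ℝ) ≤ 2 + Real.sqrt (3 * n) := by
  apply lam1_le (M := (G n).adjMatrix ℝ) ((G n).isSymm_adjMatrix)
  intro u
  set s := Real.sqrt (3 * n) with hs
  have hs2 : s ^ 2 = 3 * n := Real.sq_sqrt (by positivity)
  have hs0 : 0 ≤ s := Real.sqrt_nonneg _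
  simp only [Fintype.sum_sum_type, adjMatrix_ll, adjMatrix_lr, adjMatrix_rl, adjMatrix_rr,
    Fin.sum_univ_three, sum_add_distrib, mul_zero, mul_one, zero_mul, sum_const_zero, add_zero,
    ← mul_sum, ← sum_mul]
  simp
  set T := ∑ l : Fin n, u (Sum.inr l) with hT
  set Q := ∑ l : Fin n, u (Sum.inr l) ^ 2 with hQ
  have h1 : T ^ 2 ≤ n * Q := by
    have := sq_sum_le_card_mul_sum_sq (s := (univ : Finset (Fin n))) (f := fun l => u (Sum.inr l))
    simpa using this
  have hQ0 : 0 ≤ Q := sum_nonneg fun _ _ => sq_nonneg _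
  generalize u (Sum.inl 0) = a
  generalize u (Sum.inl 1) = b
  generalize u (Sum.inl 2) = c
  have h2 : (a + b + c) ^ 2 ≤ 3 * (a ^ 2 + b ^ 2 + c ^ 2) := by
    nlinarith [sq_nonneg (a - b), sq_nonneg (a - c), sq_nonneg (b - c)]
  -- `2 (a+b+c) T ≤ s (a²+b²+c² + Q)`
  have h3 : 2 * ((a + b + c) * T) ≤ s * (a ^ 2 + b ^ 2 + c ^ 2 + Q) := by
    have h4 : ((a + b + c) * T) ^ 2 ≤ (s * ((a ^ 2 + b ^ 2 + c ^ 2 + Q) / 2)) ^ 2 := by
      calc ((a + b + c) * T) ^ 2 = (a + b + c) ^ 2 * T ^ 2 := by ring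
        _ ≤ (3 * (a ^ 2 + b ^ 2 + c ^ 2)) * (n * Q) :=
          mul_le_mul h2 h1 (sq_nonneg _) (by positivity)
        _ = s ^ 2 * ((a ^ 2 + b ^ 2 + c ^ 2) * Q) := by rw [hs2]; ring
        _ ≤ s ^ 2 * ((a ^ 2 + b ^ 2 + c ^ 2 + Q) / 2) ^ 2 := by
          refine mul_le_mul_of_nonneg_left ?_ (sq_nonneg _)
          nlinarith [sq_nonneg (a ^ 2 + b ^ 2 + c ^ 2 - Q)]
        _ = _ := by ring
    have h5 := abs_le_of_sq_le_sq h4 (by positivity)
    have h6 := le_abs_self ((a + b + c) * T)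
    linarith
  nlinarith [sq_nonneg (a - b), sq_nonneg (a - c), sq_nonneg (b - c)]

theorem one_le (n : ℕ) : 1 ≤ lam1 ((G n).adjMatrix ℝ) := by
  have h := rayleigh (M := (G n).adjMatrix ℝ) ((G n).isSymm_adjMatrix) (fun x => match x with
    | Sum.inl i => ![1, 1, 0] i | Sum.inr _ => 0)
  simp only [Fintype.sum_sum_type, adjMatrix_ll, Fin.sum_univ_three, mul_zero, zero_mul,
    sum_const_zero, add_zero] at h
  simp at h
  linarith

/-- The distortion of an edge-deleting `(1 ± 1/2)`-Laplacian sparsifier is not bounded by a constant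
multiple of `ε λ₁(A_G)`. -/
theorem result :
    ∃ (V : ℕ → Type) (_ : ∀ n, Fintype (V n)) (_ : ∀ n, DecidableEq (V n))
      (G : ∀ n, SimpleGraph (V n)) (_ : ∀ n, DecidableRel (G n).Adj) (ε : ℕ → ℝ)
      (A : ∀ n, Matrix (V n) (V n) ℝ),
      (∀ n, (G n).Connected) ∧ (∀ n, 0 < ε n ∧ ε n < 1) ∧
      (∀ n, IsSparsifier (G n) (ε n) (A n)) ∧ (∀ n, EdgeDeleting (G n) (A n)) ∧
      Tendsto (fun n => |lam1 (A n) - lam1 ((G n).adjMatrix ℝ)| /
        (ε n * lam1 ((G n).adjMatrix ℝ))) atTop atTop := by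
  refine ⟨fun n => W (n + 6), fun _ => inferInstance, fun _ => inferInstance, fun n => G (n + 6),
    fun _ => inferInstance, fun _ => 1 / 2, fun n => A (n + 6) (1 + ((n + 6 : ℕ) : ℝ) / 6),
    fun n => connected _, fun n => by norm_num, fun n => sparsifier _ (by omega), ?_, ?_⟩
  · intro n
    refine ⟨Sum.inl 0, Sum.inl 1, show (0 : Fin 3) ≠ 1 by decide, ?_⟩
    simp [A]
  · -- it is enough to look at `m = n + 6`
    have key : ∀ m : ℕ, 6 ≤ m → Real.sqrt m / 100 - 1 ≤
        |lam1 (A m (1 + (m : ℝ) / 6)) - lam1 ((G m).adjMatrix ℝ)| /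
        (1 / 2 * lam1 ((G m).adjMatrix ℝ)) := by
      intro m hm
      have hm' : (6 : ℝ) ≤ m := by exact_mod_cast hm
      set L := lam1 ((G m).adjMatrix ℝ) with hL
      have hL1 : 1 ≤ L := one_le m
      have hLu : L ≤ 2 + Real.sqrt (3 * m) := upper m
      have hlow := lower m (by omega) (1 + (m : ℝ) / 6)
      set r := Real.sqrt m with hr
      have hr2 : r ^ 2 = m := Real.sq_sqrt (by positivity)
      have hr0 : 0 ≤ r := Real.sqrt_nonneg _
      have hs : Real.sqrt (3 * m) ≤ 2 * r := by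
        rw [Real.sqrt_le_left (by positivity)]
        nlinarith
      have hr24 : 2 ≤ r := by
        rw [hr]
        apply Real.le_sqrt_of_sq_le
        linarith
      rw [le_div_iff₀ (by positivity)]
      have habs := le_abs_self (lam1 (A m (1 + (m : ℝ) / 6)) - L)
      have habs0 := abs_nonneg (lam1 (A m (1 + (m : ℝ) / 6)) - L)
      by_cases h : r / 100 - 1 ≤ 0
      · have : (r / 100 - 1) * (1 / 2 * L) ≤ 0 := mul_nonpos_of_nonpos_of_nonneg h (by positivity)
        linarith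
      · push Not at h
        have h1 : (r / 100 - 1) * (1 / 2 * L) ≤ (r / 100) * (1 / 2 * (3 * r)) := by
          apply mul_le_mul (by linarith) _ (by positivity) (by positivity)
          linarith
        nlinarith
    have ht : Tendsto (fun n : ℕ => Real.sqrt ((n + 6 : ℕ) : ℝ) / 100 - 1) atTop atTop := by
      apply tendsto_atTop_add_const_right
      apply Tendsto.atTop_div_const (by norm_num)
      apply Real.tendsto_sqrt_atTop.comp
      exact tendsto_natCast_atTop_atTop.comp (tendsto_add_atTop_nat 6)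
    refine tendsto_atTop_mono (fun n => ?_) ht
    exact key (n + 6) (by omega)

end Example

end Pool.Agent.Results.MP_7ca01f_co.UnboundedDistortion
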